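import Pool.Agent.Helper88.GU.St

/-!
# Project GU, second hand-in, module XG

Unimodular rows over `E/I` are elementarily trivial (prime avoidance).
-/

set_option autoImplicit false

namespace Pool.Agent.Helper81.GU2

open Pool.Agent.Helper91.GU
open Pool.Agent.Helper88.GU

universe u

/-! ### elementary operations -/

section elem

variable {n : Type} [Fintype n] [DecidableEq n] {A : Type u} [CommRing A]

private lemma xg_refl (v : n → A) : EEq v v :=
  ⟨1, Submonoid.one_mem _, Matrix.vecMul_one v⟩

private lemma xg_trans {v w x : n → A} (h : EEq v w) (h' : EEq w x) : EEq v x := by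
  obtain ⟨e, he, rfl⟩ := h
  obtain ⟨f, hf, rfl⟩ := h'
  exact ⟨e * f, Submonoid.mul_mem _ he hf, (Matrix.vecMul_vecMul v e f).symm⟩

private lemma xg_single (v : n → A) {i j : n} (hij : i ≠ j) (c : A) :
    EEq v (Function.update v j (v j + v i * c)) := by
  refine ⟨Matrix.transvection i j c, Submonoid.subset_closure ⟨i, j, c, hij, rfl⟩, ?_⟩
  funext l
  rw [Matrix.transvection, Matrix.vecMul_add, Matrix.vecMul_one, Pi.add_apply]
  by_cases hl : l = j
  · subst hl
    rw [Function.update_self]
    congr 1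
    simp [Matrix.vecMul, dotProduct, Matrix.single_apply]
  · rw [Function.update_of_ne hl]
    have : Matrix.vecMul v (Matrix.single i j c) l = 0 := by
      simp [Matrix.vecMul, dotProduct, Matrix.single_apply, Ne.symm hl]
    rw [this, add_zero]

private lemma xg_all (i : n) (g : n → A) (hg : g i = 0) (v : n → A) :
    EEq v (fun j => v j + v i * g j) := by
  classical
  have key : ∀ T : Finset n, EEq v (fun j => v j + if j ∈ T then v i * g j else 0) := by
    intro T
    induction T using Finset.induction_on with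
    | empty => simpa using xg_refl v
    | insert a T ha ih =>
      by_cases hai : a = i
      · subst hai
        have : (fun j => v j + if j ∈ insert a T then v a * g j else 0) =
            (fun j => v j + if j ∈ T then v a * g j else 0) := by
          funext j
          by_cases hj : j = a
          · subst hj; simp [hg]
          · simp [hj]
        rw [this]
        exact ih
      · refine xg_trans ih ?_
        have h1 := xg_single (fun j => v j + if j ∈ T then v i * g j else 0) (Ne.symm hai) (g a)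
        convert h1 using 1
        funext j
        by_cases hj : j = a
        · subst hj
          by_cases hiT : i ∈ T
          · simp [ha, hiT, hg]
          · simp [ha, hiT]
        · simp [hj]
  simpa using key Finset.univ

private lemma xg_comb (j : n) (g : n → A) (hg : g j = 0) (v : n → A) :
    EEq v (Function.update v j (v j + ∑ i, v i * g i)) := by
  classical
  have key : ∀ T : Finset n, EEq v (Function.update v j (v j + ∑ i ∈ T, v i * g i)) := by
    intro T
    induction T using Finset.induction_on with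
    | empty => simpa using xg_refl v
    | insert a T ha ih =>
      rw [Finset.sum_insert ha]
      by_cases haj : a = j
      · subst haj
        rw [hg, mul_zero, zero_add]
        exact ih
      · refine xg_trans ih ?_
        have h1 := xg_single (Function.update v j (v j + ∑ i ∈ T, v i * g i)) haj (g a)
        convert h1 using 1
        rw [Function.update_idem, Function.update_self, Function.update_of_ne haj]
        congr 1
        ring
  exact key Finset.univ

/-- if the first `s` entries, corrected by multiples of the last one, generate the unit ideal,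
the row is elementarily trivial -/
private lemma xg_final {s : ℕ} (hs : 1 ≤ s) (b : Fin (s + 1) → A) (h g : Fin s → A)
    (hg : ∑ j, g j * (b j.castSucc + h j * b (Fin.last s)) = 1) :
    EEq b (Pi.single 0 1) := by
  classical
  have h0l : (0 : Fin (s + 1)) ≠ Fin.last s := by
    intro h
    have := congrArg Fin.val h
    simp at this
    omega
  -- step 1
  let g1 : Fin (s + 1) → A := Fin.snoc (α := fun _ => A) h 0
  have e1 := xg_all (Fin.last s) g1 (by simp [g1]) b
  set w1 : Fin (s + 1) → A := fun j => b j + b (Fin.last s) * g1 j with hw1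
  have w1c : ∀ j : Fin s, w1 j.castSucc = b j.castSucc + h j * b (Fin.last s) := by
    intro j
    simp only [hw1, g1, Fin.snoc_castSucc]
    ring
  -- step 2
  let g2 : Fin (s + 1) → A := Fin.snoc (α := fun _ => A)
    (fun j => g j * (1 - w1 (Fin.last s))) 0
  have e2 := xg_comb (Fin.last s) g2 (by simp [g2]) w1
  have hsum : w1 (Fin.last s) + ∑ i, w1 i * g2 i = 1 := by
    rw [Fin.sum_univ_castSucc]
    simp only [g2, Fin.snoc_castSucc, Fin.snoc_last, mul_zero, add_zero]
    have : ∑ i : Fin s, w1 i.castSucc * (g i * (1 - w1 (Fin.last s))) =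
        (1 - w1 (Fin.last s)) * ∑ j, g j * (b j.castSucc + h j * b (Fin.last s)) := by
      rw [Finset.mul_sum]
      refine Finset.sum_congr rfl fun i _ => ?_
      rw [w1c]
      ring
    rw [this, hg]
    ring
  rw [hsum] at e2
  set w2 : Fin (s + 1) → A := Function.update w1 (Fin.last s) 1 with hw2
  have w2l : w2 (Fin.last s) = 1 := by simp [hw2]
  -- step 3
  let g3 : Fin (s + 1) → A := fun j => if j = Fin.last s then 0 else - w2 j
  have e3 := xg_all (Fin.last s) g3 (by simp [g3]) w2
  have h3 : (fun j => w2 j + w2 (Fin.last s) * g3 j) = Pi.single (Fin.last s) 1 := by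
    funext j
    by_cases hj : j = Fin.last s
    · subst hj
      simp [g3, w2l]
    · simp [g3, w2l, hj]
  rw [h3] at e3
  -- step 4
  have e4 := xg_single (Pi.single (Fin.last s) (1 : A)) h0l.symm 1
  have e5 := xg_single (Function.update (Pi.single (Fin.last s) (1 : A)) 0
    ((Pi.single (Fin.last s) (1 : A) : Fin (s + 1) → A) 0 +
      (Pi.single (Fin.last s) (1 : A) : Fin (s + 1) → A) (Fin.last s) * 1)) h0l (-1)
  refine xg_trans e1 (xg_trans e2 (xg_trans e3 (xg_trans e4 ?_)))
  convert e5 using 1
  funext j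
  by_cases hj : j = Fin.last s
  · subst hj
    simp [h0l, h0l.symm]
  · by_cases hj0 : j = 0
    · subst hj0
      simp [h0l]
    · simp [hj, hj0]

end elem

/-! ### prime avoidance on lines -/

private lemma xg_avoid {E : Type u} [CommRing E] (S : Finset (Ideal E))
    (hS : ∀ Q ∈ S, Q.IsPrime) (a b : E) (hb : ∀ Q ∈ S, b ∉ Q) :
    ∃ h : E, ∀ Q ∈ S, a + h * b ∉ Q := by
  classical
  let M : Finset (Ideal E) := S.filter (fun Q => ∀ Q' ∈ S, Q ≤ Q' → Q' = Q)
  have hM : ∀ Q ∈ S, ∃ Q' ∈ M, Q ≤ Q' := by
    intro Q hQ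
    obtain ⟨Q', hQQ', hQ'⟩ := S.exists_le_maximal hQ
    refine ⟨Q', Finset.mem_filter.2 ⟨hQ'.1, fun R hR hle => ?_⟩, hQQ'⟩
    exact le_antisymm (hQ'.2 hR hle) hle
  let S₁ := M.filter (fun Q => a ∈ Q)
  let S₂ := M.filter (fun Q => a ∉ Q)
  have hMS : ∀ Q ∈ M, Q ∈ S := fun Q hQ => (Finset.mem_filter.1 hQ).1
  have hS₁ : ∀ Q ∈ S₁, Q ∈ M ∧ a ∈ Q := fun Q hQ => Finset.mem_filter.1 hQ
  have hS₂ : ∀ Q ∈ S₂, Q ∈ M ∧ a ∉ Q := fun Q hQ => Finset.mem_filter.1 hQ
  have hnot : ¬ ((S₂.inf id : Ideal E) : Set E) ⊆ ⋃ Q ∈ (↑S₁ : Set (Ideal E)), (Q : Set E) := by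
    rw [Ideal.subset_union_prime ⊤ ⊤ (fun Q hQ _ _ => hS Q (hMS Q (hS₁ Q hQ).1))]
    rintro ⟨Q, hQ, hle⟩
    have hQp := hS Q (hMS Q (hS₁ Q hQ).1)
    obtain ⟨R, hR, hRQ⟩ := hQp.inf_le'.1 hle
    have h1 := (Finset.mem_filter.1 (hS₂ R hR).1).2 Q (hMS Q (hS₁ Q hQ).1) hRQ
    exact (hS₂ R hR).2 (by
      have := (hS₁ Q hQ).2
      rwa [h1] at this)
  obtain ⟨h, hh, hh'⟩ := Set.not_subset.1 hnot
  refine ⟨h, fun Q hQ hmem => ?_⟩
  obtain ⟨Q', hQ', hle⟩ := hM Q hQ
  have hmem' : a + h * b ∈ Q' := hle hmem
  have hbQ' : b ∉ Q' := hb Q' (hMS Q' hQ')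
  have hQ'p := hS Q' (hMS Q' hQ')
  by_cases haQ : a ∈ Q'
  · have h1 : h * b ∈ Q' := by
      have := Q'.sub_mem hmem' haQ
      rwa [add_sub_cancel_left] at this
    rcases hQ'p.mem_or_mem h1 with h2 | h2
    · apply hh'
      simp only [Set.mem_iUnion]
      exact ⟨Q', Finset.mem_coe.2 (Finset.mem_filter.2 ⟨hQ', haQ⟩), h2⟩
    · exact hbQ' h2
  · have h1 : h ∈ Q' := by
      have h2 : S₂.inf id ≤ Q' := Finset.inf_le (f := id) (Finset.mem_filter.2 ⟨hQ', haQ⟩)
      exact h2 hh
    apply haQ
    have := Q'.sub_mem hmem' (Q'.mul_mem_right b h1)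
    rwa [add_sub_cancel_right] at this

/-- XG -/
theorem hXG (hVC : StVC.{u}) : Pool.Agent.Helper88.GU.StXG.{u} := by
  intro E _ _ I σ N s hs hN hlt hle hI b hb
  classical
  -- lifts
  have hsurj : Function.Surjective (Ideal.Quotient.mk I) := Ideal.Quotient.mk_surjective
  choose c hc using fun j => hsurj (b j)
  let c' : ℕ → E := fun j => if h : j < s then c (Fin.castSucc ⟨j, h⟩) else 0
  set bs : E := c (Fin.last s) with hbs
  let J : (ℕ → E) → ℕ → Ideal E := fun h i =>
    I ⊔ Ideal.span {x | ∃ j, j < i ∧ x = c' j + h j * bs}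
  have hJ : ∀ (h : ℕ → E) (i : ℕ) (P : Ideal E), J h i ≤ P ↔
      I ≤ P ∧ ∀ j, j < i → c' j + h j * bs ∈ P := by
    intro h i P
    simp only [J, sup_le_iff, Ideal.span_le]
    refine and_congr_right fun _ => ⟨fun H j hj => H ⟨j, hj, rfl⟩, ?_⟩
    rintro H x ⟨j, hj, rfl⟩
    exact H j hj
  have claim : ∀ i : ℕ, ∃ h : ℕ → E, ∀ P : Ideal E, P.IsPrime → J h i ≤ P → bs ∉ P →
      ((s + 1 + i : ℕ) : ℕ∞) ≤ P.height ∧ (σ ∈ P → ((s + 1 + 1 + i : ℕ) : ℕ∞) ≤ P.height) := by
    intro i
    induction i with
    | zero =>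
      refine ⟨fun _ => 0, fun P hP hJP _ => ?_⟩
      exact hI P hP ((hJ _ _ _).1 hJP).1
    | succ i ih =>
      obtain ⟨h, hh⟩ := ih
      have hf1 : Set.Finite (J h i).minimalPrimes :=
        Ideal.finite_minimalPrimes_of_isNoetherianRing E (J h i)
      have hf2 : Set.Finite (J h i ⊔ Ideal.span {σ}).minimalPrimes :=
        Ideal.finite_minimalPrimes_of_isNoetherianRing E _
      let S : Finset (Ideal E) := (hf1.toFinset ∪ hf2.toFinset).filter (fun Q => bs ∉ Q)
      obtain ⟨g, hg⟩ := xg_avoid S (by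
        intro Q hQ
        rcases Finset.mem_union.1 (Finset.mem_filter.1 hQ).1 with h1 | h1
        · exact (hf1.mem_toFinset.1 h1).1.1
        · exact (hf2.mem_toFinset.1 h1).1.1) (c' i) bs
        (fun Q hQ => (Finset.mem_filter.1 hQ).2)
      refine ⟨Function.update h i g, fun P hP hJP hbP => ?_⟩
      have hJP' := (hJ _ _ _).1 hJP
      have hJP1 : J h i ≤ P := by
        rw [hJ]
        refine ⟨hJP'.1, fun j hj => ?_⟩
        have := hJP'.2 j (by omega)
        rwa [Function.update_of_ne (by omega)] at this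
      have hyP : c' i + g * bs ∈ P := by
        have := hJP'.2 i (by omega)
        rwa [Function.update_self] at this
      have hRg : ∀ P P' : Ideal E, P ≤ P' → bs ∉ P' → bs ∉ P := fun P P' h1 h2 h3 => h2 (h1 h3)
      constructor
      · have := hVC E (J h i) (c' i + g * bs) (s + 1 + i) (fun P => bs ∉ P) hRg
          (fun Q hQ hbQ => hg Q (Finset.mem_filter.2 ⟨Finset.mem_union_left _
            (hf1.mem_toFinset.2 hQ), hbQ⟩))
          (fun P hP h1 h2 => (hh P hP h1 h2).1) P hP hJP1 hbP hyP
        rw [show s + 1 + (i + 1) = s + 1 + i + 1 by omega]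
        exact this
      · intro hσ
        have := hVC E (J h i ⊔ Ideal.span {σ}) (c' i + g * bs) (s + 1 + 1 + i)
          (fun P => bs ∉ P) hRg
          (fun Q hQ hbQ => hg Q (Finset.mem_filter.2 ⟨Finset.mem_union_right _
            (hf2.mem_toFinset.2 hQ), hbQ⟩))
          (fun P hP h1 h2 => (hh P hP (le_sup_left.trans h1) h2).2
            (h1 (Ideal.mem_sup_right (Ideal.mem_span_singleton_self σ)))) P hP
          (sup_le hJP1 ((Ideal.span_singleton_le_iff_mem _).2 hσ)) hbP hyP
        rw [show s + 1 + 1 + (i + 1) = s + 1 + 1 + i + 1 by omega]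
        exact this
  obtain ⟨h, hh⟩ := claim s
  -- the ideal is everything
  have hJtop : J h s = ⊤ := by
    by_contra hne
    obtain ⟨P, hPm, hJP⟩ := Ideal.exists_le_maximal _ hne
    have hP := hPm.isPrime
    have hJP' := (hJ _ _ _).1 hJP
    have hbP : bs ∈ P := by
      by_contra hbP
      obtain ⟨h1, h2⟩ := hh P hP hJP hbP
      by_cases hσ : σ ∈ P
      · have h3 := (h2 hσ).trans (hle P hP)
        have h4 : s + 1 + 1 + s ≤ N := by exact_mod_cast h3
        omega
      · have h3 := h1.trans_lt (hlt P hP hσ)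
        have h4 : s + 1 + s < N := by exact_mod_cast h3
        omega
    have hcP : ∀ j, c j ∈ P := by
      intro j
      refine Fin.lastCases hbP (fun i => ?_) j
      have h1 := hJP'.2 i.1 i.2
      have h2 : c' i.1 = c i.castSucc := by
        simp only [c', i.2, dite_true]
      rw [h2] at h1
      have := P.sub_mem h1 (P.mul_mem_left (h i.1) hbP)
      rwa [add_sub_cancel_right] at this
    obtain ⟨y, hy⟩ := hb
    choose z hz using fun j => hsurj (y j)
    have h1 : 1 - ∑ j, c j * z j ∈ I := by
      rw [← Ideal.Quotient.eq_zero_iff_mem, map_sub, map_one, map_sum, ← hy, sub_eq_zero]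
      refine Finset.sum_congr rfl fun j _ => ?_
      rw [map_mul, hc, hz]
    have h2 : (1 : E) ∈ P := by
      have h3 : ∑ j, c j * z j ∈ P := P.sum_mem fun j _ => P.mul_mem_right _ (hcP j)
      have := P.add_mem (hJP'.1 h1) h3
      rwa [sub_add_cancel] at this
    exact hP.ne_top ((Ideal.eq_top_iff_one _).2 h2)
  -- unit ideal in the quotient
  have hspan : (1 : E ⧸ I) ∈ Ideal.span (Set.range fun j : Fin s =>
      b j.castSucc + Ideal.Quotient.mk I (h j.1) * b (Fin.last s)) := by
    have h1 : (1 : E) ∈ J h s := by rw [hJtop]; trivial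
    have h2 : Ideal.Quotient.mk I 1 ∈ (J h s).map (Ideal.Quotient.mk I) :=
      Ideal.mem_map_of_mem _ h1
    rw [map_one] at h2
    have h3 : (J h s).map (Ideal.Quotient.mk I) ≤ Ideal.span (Set.range fun j : Fin s =>
        b j.castSucc + Ideal.Quotient.mk I (h j.1) * b (Fin.last s)) := by
      rw [Ideal.map_le_iff_le_comap, hJ]
      constructor
      · intro x hx
        rw [Ideal.mem_comap, Ideal.Quotient.eq_zero_iff_mem.2 hx]
        exact Ideal.zero_mem _
      · intro j hj
        rw [Ideal.mem_comap]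
        refine Ideal.subset_span ⟨⟨j, hj⟩, ?_⟩
        have h4 : c' j = c (Fin.castSucc ⟨j, hj⟩) := by
          simp only [c', hj, dite_true]
        rw [h4, map_add, map_mul, hc, hbs, hc]
    exact h3 h2
  rw [Ideal.span, Submodule.mem_span_range_iff_exists_fun] at hspan
  obtain ⟨g, hg⟩ := hspan
  exact xg_final hs b (fun j => Ideal.Quotient.mk I (h j.1)) g (by simpa using hg)

end Pool.Agent.Helper81.GU2
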